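import Pool.Agent.W661.RC.Stm

/-! RC-NIS (MP_f81d8e_an): a near-isometry of rectangular matrices is close to an isometry. -/

set_option autoImplicit false

open Matrix
open scoped ComplexOrder

namespace Pool.Agent.W465.RCNis
open Pool.Agent.W661.RC

noncomputable section

lemma hs_eq {m n : Type} [Fintype m] [Fintype n] (x : Matrix m n ℂ) :
    ((hs x : ℝ) : ℂ) = Matrix.trace (xᴴ * x) := by
  unfold hs
  rw [Matrix.trace]
  simp only [Matrix.diag_apply, Matrix.mul_apply, Matrix.conjTranspose_apply]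
  rw [Finset.sum_comm]
  push_cast
  apply Finset.sum_congr rfl
  intro i _
  apply Finset.sum_congr rfl
  intro j _
  rw [← Complex.conj_mul']
  rfl

lemma exists_isom {d : ℕ} {J : Type} [Fintype J] [DecidableEq J] (Z : Matrix (Fin d) J ℂ)
    (s : J → ℝ) (hs0 : ∀ k, 0 ≤ s k) (hZ : Zᴴ * Z = diagonal fun k => ((s k ^ 2 : ℝ) : ℂ))
    (hd : Fintype.card J ≤ d) :
    ∃ W : Matrix (Fin d) J ℂ, Wᴴ * W = 1 ∧ Z = W * diagonal fun k => ((s k : ℝ) : ℂ) := by
  classical
  set v : J ⊕ Fin (d - Fintype.card J) → EuclideanSpace ℂ (Fin d) := fun x =>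
    match x with
    | Sum.inl k => WithLp.toLp 2 (fun i => ((s k : ℝ) : ℂ)⁻¹ * Z i k)
    | Sum.inr _ => 0 with hv
  set S : Set (J ⊕ Fin (d - Fintype.card J)) := {x | ∃ k, x = Sum.inl k ∧ 0 < s k} with hS
  have hinner : ∀ k l, inner ℂ (v (Sum.inl k)) (v (Sum.inl l)) =
      ((s k : ℝ) : ℂ)⁻¹ * ((s l : ℝ) : ℂ)⁻¹ * (Zᴴ * Z) k l := by
    intro k l
    rw [PiLp.inner_apply, Matrix.mul_apply, Finset.mul_sum]
    apply Finset.sum_congr rfl
    intro i _
    simp only [hv, Matrix.conjTranspose_apply, RCLike.inner_apply, map_mul, map_inv₀,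
      Complex.conj_ofReal]
    have : (starRingEnd ℂ) (Z i k) = star (Z i k) := rfl
    rw [this]
    ring
  have hortho : Orthonormal ℂ (S.domRestrict v) := by
    rw [orthonormal_iff_ite]
    rintro ⟨x, k, rfl, hk⟩ ⟨y, l, rfl, hl⟩
    show inner ℂ (v (Sum.inl k)) (v (Sum.inl l)) = _
    rw [hinner, hZ]
    by_cases hkl : k = l
    · subst hkl
      rw [Matrix.diagonal_apply_eq, if_pos rfl]
      have : ((s k : ℝ) : ℂ) ≠ 0 := by exact_mod_cast hk.ne'
      push_cast
      field_simp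
    · rw [Matrix.diagonal_apply_ne _ hkl, mul_zero, if_neg]
      intro h
      apply hkl
      have := congrArg Subtype.val h
      exact Sum.inl_injective this
  have hcard : Module.finrank ℂ (EuclideanSpace ℂ (Fin d)) =
      Fintype.card (J ⊕ Fin (d - Fintype.card J)) := by
    rw [finrank_euclideanSpace, Fintype.card_fin, Fintype.card_sum, Fintype.card_fin]
    omega
  obtain ⟨b, hb⟩ := hortho.exists_orthonormalBasis_extension_of_card_eq hcard
  refine ⟨Matrix.of fun i k => b (Sum.inl k) i, ?_, ?_⟩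
  · ext k l
    rw [Matrix.mul_apply]
    have h1 : inner ℂ (b (Sum.inl k)) (b (Sum.inl l)) = if k = l then (1 : ℂ) else 0 := by
      rw [orthonormal_iff_ite.1 b.orthonormal]
      by_cases hkl : k = l
      · subst hkl; simp
      · rw [if_neg hkl, if_neg (fun h => hkl (Sum.inl_injective h))]
    rw [Matrix.one_apply, ← h1, PiLp.inner_apply]
    apply Finset.sum_congr rfl
    intro i _
    simp only [Matrix.conjTranspose_apply, Matrix.of_apply, RCLike.inner_apply]
    have : (starRingEnd ℂ) ((b (Sum.inl k)) i) = star ((b (Sum.inl k)) i) := rfl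
    rw [this]
    ring
  · ext i k
    rw [Matrix.mul_diagonal, Matrix.of_apply]
    rcases (hs0 k).eq_or_lt with h0 | h0
    · rw [← h0]
      have h1 := congrFun (congrFun hZ k) k
      rw [Matrix.mul_apply, Matrix.diagonal_apply_eq, ← h0] at h1
      simp only [Matrix.conjTranspose_apply] at h1
      have h2 : ∑ j, ((‖Z j k‖ ^ 2 : ℝ) : ℂ) = 0 := by
        have h2' : ∑ j, ((‖Z j k‖ ^ 2 : ℝ) : ℂ) = ∑ j, star (Z j k) * Z j k := by
          apply Finset.sum_congr rfl
          intro j _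
          push_cast
          rw [← Complex.conj_mul']
          rfl
        rw [h2', h1]
        norm_num
      have h3 : ∑ j, ‖Z j k‖ ^ 2 = 0 := by exact_mod_cast h2
      rw [Finset.sum_eq_zero_iff_of_nonneg (fun j _ => by positivity)] at h3
      have h4 := h3 i (Finset.mem_univ i)
      have h5 : Z i k = 0 := by
        rw [← norm_eq_zero]
        exact pow_eq_zero_iff (two_ne_zero) |>.1 h4
      rw [h5]
      push_cast
      ring
    · rw [hb (Sum.inl k) ⟨k, rfl, h0⟩]
      have : ((s k : ℝ) : ℂ) ≠ 0 := by exact_mod_cast h0.ne'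
      simp only [hv]
      field_simp

theorem main : NisP := by
  intro d J _ _ Y κ hκ hY hJ
  have hA : (Yᴴ * Y).IsHermitian := Matrix.isHermitian_conjTranspose_mul_self Y
  have hApsd : (Yᴴ * Y).PosSemidef := Matrix.posSemidef_conjTranspose_mul_self Y
  set U : Matrix J J ℂ := (hA.eigenvectorUnitary : Matrix J J ℂ) with hU
  have hUU : Uᴴ * U = 1 := Unitary.coe_star_mul_self hA.eigenvectorUnitary
  have hUU' : U * Uᴴ = 1 := Unitary.coe_mul_star_self hA.eigenvectorUnitary
  set ev := hA.eigenvalues with hev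
  have hev0 : ∀ k, 0 ≤ ev k := hApsd.eigenvalues_nonneg
  have hdiag : Uᴴ * (Yᴴ * Y) * U = diagonal fun k => ((ev k : ℝ) : ℂ) := by
    have h1 := hA.conjStarAlgAut_star_eigenvectorUnitary
    rw [Unitary.conjStarAlgAut_star_apply] at h1
    exact h1
  set Z : Matrix (Fin d) J ℂ := Y * U with hZ
  have hZZ : Zᴴ * Z = diagonal fun k => ((Real.sqrt (ev k) ^ 2 : ℝ) : ℂ) := by
    rw [hZ, Matrix.conjTranspose_mul]
    have : Uᴴ * Yᴴ * (Y * U) = Uᴴ * (Yᴴ * Y) * U := by simp only [Matrix.mul_assoc]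
    rw [this, hdiag]
    congr 1
    funext k
    rw [Real.sq_sqrt (hev0 k)]
  obtain ⟨W, hWW, hWZ⟩ := exists_isom Z (fun k => Real.sqrt (ev k)) (fun k => Real.sqrt_nonneg _) hZZ hJ
  -- eigenvalues are at most 1 + κ
  have hle : ∀ k, ev k ≤ 1 + κ := by
    intro k
    have h1 : (Zᴴ * ((((1 + κ : ℝ) : ℂ) • (1 : Matrix (Fin d) (Fin d) ℂ)) - Y * Yᴴ) * Z).PosSemidef :=
      hY.conjTranspose_mul_mul_same Z
    have hZY : Zᴴ * Y = (diagonal fun k => ((ev k : ℝ) : ℂ)) * Uᴴ := by
      rw [← hdiag, Matrix.mul_assoc, hUU', Matrix.mul_one, hZ, Matrix.conjTranspose_mul,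
        Matrix.mul_assoc]
    have hYZ : Yᴴ * Z = U * (diagonal fun k => ((ev k : ℝ) : ℂ)) := by
      rw [← hdiag]
      calc Yᴴ * Z = 1 * (Yᴴ * Y) * U := by rw [hZ, Matrix.one_mul, Matrix.mul_assoc]
        _ = U * (Uᴴ * (Yᴴ * Y) * U) := by rw [← hUU']; simp only [Matrix.mul_assoc]
    have h2 : Zᴴ * ((((1 + κ : ℝ) : ℂ) • (1 : Matrix (Fin d) (Fin d) ℂ)) - Y * Yᴴ) * Z =
        diagonal fun k => (((1 + κ) * ev k - ev k ^ 2 : ℝ) : ℂ) := by
      rw [Matrix.mul_sub, Matrix.sub_mul, Matrix.mul_smul, Matrix.mul_one, Matrix.smul_mul, hZZ]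
      have h3 : Zᴴ * (Y * Yᴴ) * Z = (Zᴴ * Y) * (Yᴴ * Z) := by simp only [Matrix.mul_assoc]
      rw [h3, hZY, hYZ]
      have h4 : (diagonal fun k => ((ev k : ℝ) : ℂ)) * Uᴴ * (U * diagonal fun k => ((ev k : ℝ) : ℂ)) =
          (diagonal fun k => ((ev k : ℝ) : ℂ)) * (Uᴴ * U) * (diagonal fun k => ((ev k : ℝ) : ℂ)) := by
        simp only [Matrix.mul_assoc]
      rw [h4, hUU, Matrix.mul_one, Matrix.diagonal_mul_diagonal, ← Matrix.diagonal_smul,
        Matrix.diagonal_sub]
      congr 1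
      funext k
      simp only [Pi.smul_apply, smul_eq_mul]
      rw [Real.sq_sqrt (hev0 k)]
      push_cast
      ring
    rw [h2] at h1
    have h5 := h1.diag_nonneg (i := k)
    rw [Matrix.diagonal_apply_eq] at h5
    have h6 : 0 ≤ (1 + κ) * ev k - ev k ^ 2 := by exact_mod_cast h5
    rcases (hev0 k).eq_or_lt with h7 | h7
    · rw [← h7]; linarith
    · nlinarith
  refine ⟨W * Uᴴ, ?_, ?_⟩
  · rw [Matrix.conjTranspose_mul, Matrix.conjTranspose_conjTranspose]
    calc U * Wᴴ * (W * Uᴴ) = U * (Wᴴ * W) * Uᴴ := by simp only [Matrix.mul_assoc]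
      _ = 1 := by rw [hWW, Matrix.mul_one, hUU']
  · -- hs is invariant
    have hinv : ∀ X : Matrix (Fin d) J ℂ, hs (X * Uᴴ) = hs X := by
      intro X
      have h1 : ((hs (X * Uᴴ) : ℝ) : ℂ) = ((hs X : ℝ) : ℂ) := by
        rw [hs_eq, hs_eq, Matrix.conjTranspose_mul, Matrix.conjTranspose_conjTranspose]
        have h2 : U * Xᴴ * (X * Uᴴ) = U * (Xᴴ * X * Uᴴ) := by simp only [Matrix.mul_assoc]
        rw [h2, Matrix.trace_mul_comm, Matrix.mul_assoc, hUU, Matrix.mul_one]
      exact_mod_cast h1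
    have hYZ : Y = Z * Uᴴ := by rw [hZ, Matrix.mul_assoc, hUU', Matrix.mul_one]
    have e1 : hs (W * Uᴴ - Y) = hs (W - Z) := by
      conv_lhs => rw [hYZ, ← Matrix.sub_mul]
      exact hinv _
    have e2 : hs Y = hs Z := by
      conv_lhs => rw [hYZ]
      exact hinv _
    have e3 : hs Z = ∑ k, ev k := by
      have h1 : ((hs Z : ℝ) : ℂ) = ((∑ k, ev k : ℝ) : ℂ) := by
        rw [hs_eq, hZZ, Matrix.trace_diagonal]
        push_cast
        apply Finset.sum_congr rfl
        intro k _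
        rw [← Complex.ofReal_pow, Real.sq_sqrt (hev0 k)]
      exact_mod_cast h1
    have e4 : hs (W - Z) = ∑ k, (1 - Real.sqrt (ev k)) ^ 2 := by
      have h0 : W - Z = W * diagonal fun k => ((1 - Real.sqrt (ev k) : ℝ) : ℂ) := by
        have h1 : W = W * diagonal fun _ : J => (1 : ℂ) := by
          rw [Matrix.diagonal_one, Matrix.mul_one]
        rw [hWZ]
        nth_rewrite 1 [h1]
        rw [← Matrix.mul_sub, Matrix.diagonal_sub]
        congr 2
        funext k
        push_cast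
        rfl
      have h1 : ((hs (W - Z) : ℝ) : ℂ) = ((∑ k, (1 - Real.sqrt (ev k)) ^ 2 : ℝ) : ℂ) := by
        rw [hs_eq, h0, Matrix.conjTranspose_mul, Matrix.diagonal_conjTranspose]
        have h2 : ∀ D D' : Matrix J J ℂ, D * Wᴴ * (W * D') = D * (Wᴴ * W) * D' := by
          intro D D'
          simp only [Matrix.mul_assoc]
        rw [h2, hWW, Matrix.mul_one, Matrix.diagonal_mul_diagonal, Matrix.trace_diagonal]
        push_cast
        apply Finset.sum_congr rfl
        intro k _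
        simp only [Pi.star_apply, star_sub, star_one, RCLike.star_def, Complex.conj_ofReal]
        ring
      exact_mod_cast h1
    rw [e1, e2, e3, e4]
    have hk : ∀ k, (1 - Real.sqrt (ev k)) ^ 2 ≤ (1 + 2 * κ) - ev k := by
      intro k
      have h1 := Real.sqrt_nonneg (ev k)
      have h2 := Real.sq_sqrt (hev0 k)
      have h3 := hle k
      set s := Real.sqrt (ev k)
      rcases le_total s 1 with h4 | h4
      · nlinarith
      · nlinarith
    calc ∑ k, (1 - Real.sqrt (ev k)) ^ 2 ≤ ∑ k, ((1 + 2 * κ) - ev k) :=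
          Finset.sum_le_sum fun k _ => hk k
      _ = (1 + 2 * κ) * Fintype.card J - ∑ k, ev k := by
        rw [Finset.sum_sub_distrib, Finset.sum_const, Finset.card_univ, nsmul_eq_mul]
        ring

end

end Pool.Agent.W465.RCNis
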